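import Pool.Agent.Helper95.PW.Stmts

/-! Row CUB. -/

set_option autoImplicit false

namespace Pool.Agent.Helper95.PW

open MeasureTheory Filter

theorem st_CUB (h1 : ST_POI) (h2 : ST_PAU) : ST_CUB := by
  obtain ⟨C, hC, h⟩ := h1
  refine ⟨C, hC, fun n u c l hu ha hl => ?_⟩
  have h3 := h2 n u c l hu ha hl
  have h4 : ∑ k, ∑ s, (∫ x in {x : Cf n | x k ∈ cube c l}, u s x ^ 2) ≤
      ∑ k, ∑ s, ((∫ x in {x : Cf n | x k ∈ cube c l}, av k c l (u s) x ^ 2) +
        C * l ^ 2 * ∫ x in {x : Cf n | x k ∈ cube c l}, ∑ i, dv k i (u s) x ^ 2) :=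
    Finset.sum_le_sum fun k _ => Finset.sum_le_sum fun s _ =>
      h n k (u s) c l (hu s).1 (hu s).2 hl
  simp only [Finset.sum_add_distrib, ← Finset.mul_sum] at h4
  linarith

end Pool.Agent.Helper95.PW
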